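import Pool.Agent.Lib.MP_70c392_co.Proof

set_option autoImplicit false

namespace Pool.Agent.Results.MP_70c392_co.DiestelLeader

open SimpleGraph Pool.Agent.Lib.MP_70c392_co

/-- For all integers `q > r ≥ 2` there is an infinite, connected, locally finite,
vertex-transitive, `(q + r)`-regular, non-Liouville graph with survival number at most
`q + r + 2`. -/
theorem result (q r : ℕ) (hr : 2 ≤ r) (hqr : r < q) :
    ∃ (V : Type) (G : SimpleGraph V) (_ : G.LocallyFinite), Infinite V ∧ G.Connected ∧
      IsVertexTransitive G ∧ (∀ v, G.degree v = q + r) ∧ ¬ IsLiouville G ∧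
      survivalNumber G ≤ ((q + r + 2 : ℕ) : ℕ∞) :=
  main q r hr hqr

end Pool.Agent.Results.MP_70c392_co.DiestelLeader
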